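import Mathlib

set_option autoImplicit false
open Finset

namespace Pool.Agent.H.MP_0b8746_pr

theorem reduce {ι : Type} [DecidableEq ι] {d : ℕ} (v : ι → Fin d → ℝ) (A : Finset ι) (N : ℕ) :
    ∀ μ : ι → ℝ, (∀ a ∈ A, 0 ≤ μ a ∧ μ a ≤ 1) →
      (A.filter fun a => 0 < μ a ∧ μ a < 1).card ≤ N →
      ∃ ν : ι → ℝ, (∀ a ∈ A, 0 ≤ ν a ∧ ν a ≤ 1) ∧ ∑ a ∈ A, ν a = ∑ a ∈ A, μ a ∧
        ∑ a ∈ A, ν a • v a = ∑ a ∈ A, μ a • v a ∧
        (A.filter fun a => 0 < ν a ∧ ν a < 1).card ≤ d + 1 := by
  induction N with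
  | zero => exact fun μ h hN => ⟨μ, h, rfl, rfl, by omega⟩
  | succ N ih =>
    intro μ h hN
    by_cases hc : (A.filter fun a => 0 < μ a ∧ μ a < 1).card ≤ d + 1
    · exact ⟨μ, h, rfl, rfl, hc⟩
    set B := A.filter fun a => 0 < μ a ∧ μ a < 1 with hB
    have hB1 : ∀ a ∈ B, a ∈ A ∧ 0 < μ a ∧ μ a < 1 := fun a ha => by simpa [hB] using ha
    have hd : ¬ LinearIndepOn ℝ (fun a => ((1 : ℝ), v a)) B := by
      intro hl
      have := LinearIndependent.fintype_card_le_finrank hl
      simp at this
      omega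
    rw [linearIndepOn_finset_iff] at hd
    push Not at hd
    obtain ⟨f, hf, b, hb, hfb⟩ := hd
    have hf1 : ∑ a ∈ B, f a = 0 := by simpa [Prod.fst_sum] using congrArg Prod.fst hf
    have hf2 : ∑ a ∈ B, f a • v a = 0 := by simpa [Prod.snd_sum] using congrArg Prod.snd hf
    let r : ι → ℝ := fun a => if 0 < f a then (1 - μ a) / f a else μ a / (-f a)
    obtain ⟨c, hc1, hc2⟩ := exists_min_image (B.filter fun a => f a ≠ 0) r ⟨b, by simp [hb, hfb]⟩
    rw [mem_filter] at hc1
    have hr : 0 ≤ r c := by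
      have := hB1 c hc1.1
      simp only [r]
      split_ifs with h'
      · exact div_nonneg (by linarith) h'.le
      · exact div_nonneg (by linarith) (by linarith)
    let δ : ι → ℝ := fun a => if a ∈ B then f a else 0
    have hs : ∀ {M : Type} [AddCommGroup M] [Module ℝ M] (w : ι → M),
        ∑ a ∈ A, δ a • w a = ∑ a ∈ B, f a • w a := by
      intro M _ _ w
      simp only [δ, ite_smul, zero_smul]
      rw [sum_ite_mem, inter_eq_right.mpr (filter_subset _ _)]
    obtain ⟨ν, h1, h2, h3, h4⟩ := ih (fun a => μ a + r c * δ a) (by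
      intro a ha
      simp only [δ]
      split_ifs with h'
      · have h0 := hB1 a h'
        rcases lt_trichotomy 0 (f a) with h5 | h5 | h5
        · have := hc2 a (mem_filter.mpr ⟨h', h5.ne'⟩)
          rw [show r a = (1 - μ a) / f a from if_pos h5, le_div_iff₀ h5] at this
          exact ⟨by nlinarith [mul_nonneg hr h5.le], by linarith⟩
        · rw [← h5]; simpa using h a ha
        · have := hc2 a (mem_filter.mpr ⟨h', h5.ne⟩)
          rw [show r a = μ a / (-f a) from if_neg h5.not_gt, le_div_iff₀ (neg_pos.mpr h5)] at this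
          exact ⟨by linarith, by nlinarith [mul_nonneg hr (neg_pos.mpr h5).le]⟩
      · simpa using h a ha) (by
      have : (A.filter fun a => 0 < μ a + r c * δ a ∧ μ a + r c * δ a < 1) ⊆ B.erase c := by
        intro a ha
        rw [mem_filter] at ha
        have haB : a ∈ B := by
          by_contra h'
          simp only [δ, if_neg h', mul_zero, add_zero] at ha
          exact h' (mem_filter.mpr ha)
        refine mem_erase.mpr ⟨?_, haB⟩
        rintro rfl
        have h6 := ha.2
        simp only [δ, if_pos haB, r] at h6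
        split_ifs at h6 with h5
        · rw [div_mul_cancel₀ _ h5.ne'] at h6; linarith
        · rw [div_neg, neg_mul, div_mul_cancel₀ _ hc1.2] at h6; linarith
      have := card_le_card this
      rw [card_erase_of_mem hc1.1] at this
      omega)
    refine ⟨ν, h1, h2.trans ?_, h3.trans ?_, h4⟩
    · have := hs (fun _ => (1 : ℝ))
      simp only [smul_eq_mul, mul_one] at this
      rw [sum_add_distrib, ← mul_sum, this, hf1]; simp
    · simp only [add_smul, mul_smul]
      rw [sum_add_distrib, ← smul_sum, hs, hf2]; simp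

theorem steinitz_aux {ι : Type} [DecidableEq ι] [Nonempty ι] {d : ℕ} (v : ι → Fin d → ℝ) (K : ℝ)
    (hK : ∀ a j, |v a j| ≤ K) (N : ℕ) : ∀ (A : Finset ι) (μ : ι → ℝ), A.card = N →
      (∀ a ∈ A, 0 ≤ μ a ∧ μ a ≤ 1) → (d ≤ N → ∑ a ∈ A, μ a = N - d) → ∑ a ∈ A, μ a • v a = 0 →
      ∃ f : ℕ → ι, (∀ i < N, f i ∈ A) ∧ (∀ i < N, ∀ k < N, f i = f k → i = k) ∧
        ∀ i ≤ N, ∀ j, |∑ k ∈ range i, v (f k) j| ≤ d * K := by
  induction N with
  | zero =>
    intro A μ _ _ _ _
    refine ⟨fun _ => Classical.arbitrary ι, by simp, by simp, fun i hi j => ?_⟩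
    have := (abs_nonneg _).trans (hK (Classical.arbitrary ι) j)
    obtain rfl : i = 0 := by omega
    simp; positivity
  | succ N ih =>
    intro A μ hA h hs hv
    have key : ∃ (a : ι) (ν : ι → ℝ), a ∈ A ∧ (∀ a ∈ A, 0 ≤ ν a ∧ ν a ≤ 1) ∧
        (d ≤ N → ∑ a ∈ A, ν a = N - d) ∧ ∑ a ∈ A, ν a • v a = 0 ∧ ν a = 0 := by
      by_cases hd : d ≤ N
      · have hp : (0 : ℝ) < N + 1 - d := by have : (d : ℝ) ≤ N := by exact_mod_cast hd
                                            linarith
        have hp' : (0 : ℝ) ≤ N - d := by have : (d : ℝ) ≤ N := by exact_mod_cast hd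
                                         linarith
        have hq : (N - d) / (N + 1 - d) ≤ (1 : ℝ) := (div_le_one hp).mpr (by linarith)
        have hq0 : (0 : ℝ) ≤ (N - d) / (N + 1 - d) := div_nonneg hp' hp.le
        obtain ⟨ν, h1, h2, h3, h4⟩ := reduce v A _ (fun a => (N - d) / (N + 1 - d) * μ a)
          (fun a ha => ⟨mul_nonneg hq0 (h a ha).1, mul_le_one₀ hq (h a ha).1 (h a ha).2⟩) le_rfl
        rw [← mul_sum, hs (by omega)] at h2
        push_cast at h2
        rw [div_mul_cancel₀ _ hp.ne'] at h2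
        simp only [mul_smul] at h3
        rw [← smul_sum, hv, smul_zero] at h3
        by_contra hn
        push Not at hn
        have h5 : ∀ a ∈ A, 0 < ν a := fun a ha =>
          lt_of_le_of_ne (h1 a ha).1 (hn a ν ha h1 (fun _ => h2) h3).symm
        have h6 := card_filter_add_card_filter_not (s := A) (fun a => 0 < ν a ∧ ν a < 1)
        have h7 := sum_filter_add_sum_filter_not A (fun a => 0 < ν a ∧ ν a < 1) ν
        have h8 : ∑ a ∈ A.filter (fun a => ¬ (0 < ν a ∧ ν a < 1)), ν a
            = (A.filter (fun a => ¬ (0 < ν a ∧ ν a < 1))).card := by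
          rw [card_eq_sum_ones, Nat.cast_sum]
          refine sum_congr rfl fun a ha => ?_
          rw [mem_filter] at ha
          have := h5 a ha.1
          have := (h1 a ha.1).2
          have := ha.2
          push Not at this
          push_cast
          linarith [this ‹_›]
        rcases (A.filter fun a => 0 < ν a ∧ ν a < 1).eq_empty_or_nonempty with he | he
        · rw [he] at h6 h7
          simp only [card_empty, zero_add, sum_empty] at h6 h7
          rw [h8, h6, hA, h2] at h7
          push_cast at h7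
          have : (0 : ℝ) ≤ d := by positivity
          linarith
        · have h9 := sum_pos (fun a ha => (mem_filter.mp ha).2.1) he
          have : ((N : ℝ) + 1) ≤ d + 1 + (A.filter (fun a => ¬ (0 < ν a ∧ ν a < 1))).card := by
            exact_mod_cast (by omega)
          linarith
      · obtain ⟨a, ha⟩ : A.Nonempty := card_pos.mp (by omega)
        exact ⟨a, fun _ => 0, ha, by simp, fun h => absurd h hd, by simp, rfl⟩
    obtain ⟨a, ν, ha, h1, h2, h3, h4⟩ := key
    obtain ⟨f, f1, f2, f3⟩ := ih (A.erase a) ν (by rw [card_erase_of_mem ha]; omega)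
      (fun b hb => h1 b (mem_of_mem_erase hb))
      (fun hd => by rw [sum_erase _ h4]; exact h2 hd) (by rw [sum_erase _ (by simp [h4])]; exact h3)
    let g : ℕ → ι := fun i => if i < N then f i else a
    have g1 : ∀ i < N + 1, g i ∈ A := by
      intro i _
      simp only [g]
      split_ifs with h'
      exacts [mem_of_mem_erase (f1 i h'), ha]
    have g2 : ∀ i < N + 1, ∀ k < N + 1, g i = g k → i = k := by
      intro i hi k hk e
      simp only [g] at e
      split_ifs at e with h5 h6 h6
      · exact f2 i h5 k h6 e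
      · exact absurd e (ne_of_mem_erase (f1 i h5))
      · exact absurd e.symm (ne_of_mem_erase (f1 k h6))
      · omega
    refine ⟨g, g1, g2, fun i hi j => ?_⟩
    have hK0 := (abs_nonneg _).trans (hK a j)
    rcases hi.lt_or_eq with hi | rfl
    · rw [sum_congr rfl (g := fun k => v (f k) j) fun k hk => by
        simp only [g]; rw [if_pos (by rw [mem_range] at hk; omega)]]
      exact f3 i (by omega) j
    by_cases hd : d ≤ N + 1
    · have e1 : ∑ k ∈ range (N + 1), v (g k) j = ∑ b ∈ A, v b j := by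
        refine sum_bij (fun k _ => g k) (fun k hk => g1 k (mem_range.mp hk))
          (fun i hi k hk => g2 i (mem_range.mp hi) k (mem_range.mp hk)) (fun b hb => ?_)
          fun _ _ => rfl
        obtain ⟨k, hk, e⟩ := surj_on_of_inj_on_of_card_le (s := range (N + 1)) (t := A)
          (fun k _ => g k) (fun k hk => g1 k (mem_range.mp hk))
          (fun i k hi hk => g2 i (mem_range.mp hi) k (mem_range.mp hk)) (by simp [hA]) b hb
        exact ⟨k, hk, e.symm⟩
      have e2 := congrFun hv j
      simp only [Finset.sum_apply, Pi.smul_apply, smul_eq_mul, Pi.zero_apply] at e2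
      have e3 : ∑ b ∈ A, v b j = ∑ b ∈ A, (1 - μ b) * v b j := by
        simp only [sub_mul, one_mul]; rw [sum_sub_distrib, e2, sub_zero]
      rw [e1, e3]
      refine (abs_sum_le_sum_abs _ _).trans ((sum_le_sum (g := fun b => (1 - μ b) * K)
        fun b hb => ?_).trans (le_of_eq ?_))
      · rw [abs_mul, abs_of_nonneg (sub_nonneg.mpr (h b hb).2)]
        exact mul_le_mul_of_nonneg_left (hK b j) (sub_nonneg.mpr (h b hb).2)
      · rw [← sum_mul, sum_sub_distrib, hs hd]; simp [hA]
    · refine (abs_sum_le_sum_abs _ _).trans ((sum_le_card_nsmul _ _ K fun k _ => hK _ j).trans ?_)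
      rw [card_range, nsmul_eq_mul]
      exact mul_le_mul_of_nonneg_right (by exact_mod_cast (by omega)) hK0

theorem steinitz {n d : ℕ} (hn : 0 < n) (v : Fin n → Fin d → ℝ) (K : ℝ) (hK : ∀ a j, |v a j| ≤ K)
    (hv : ∑ a, v a = 0) : ∃ π : Equiv.Perm (Fin n), ∀ i ≤ n, ∀ j,
      |∑ k ∈ range i, if h : k < n then v (π ⟨k, h⟩) j else 0| ≤ d * K := by
  have : Nonempty (Fin n) := ⟨⟨0, hn⟩⟩
  have hn' : (0 : ℝ) < n := by exact_mod_cast hn
  obtain ⟨f, -, f2, f3⟩ := steinitz_aux v K hK n univ (fun _ => max (n - d : ℝ) 0 / n) (by simp)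
    (fun _ _ => ⟨by positivity, (div_le_one hn').mpr (max_le (by simp) hn'.le)⟩)
    (fun hd => by
      rw [max_eq_left (sub_nonneg.mpr (by exact_mod_cast hd))]; simp; field_simp)
    (by rw [← smul_sum, hv, smul_zero])
  refine ⟨Equiv.ofBijective (fun k => f k) (Finite.injective_iff_bijective.mp
    fun a b e => Fin.ext (f2 _ a.2 _ b.2 e)), fun i hi j => ?_⟩
  rw [sum_congr rfl (g := fun k => v (f k) j) fun k hk => by
    rw [dif_pos (by rw [mem_range] at hk; omega)]; rfl]
  exact f3 i hi j

end Pool.Agent.H.MP_0b8746_pr
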