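import Mathlib
import Pool.Agent.H.MP_0b8746_pr.Steinitz

set_option autoImplicit false
open MeasureTheory ProbabilityTheory

namespace Pool.Agent.H.MP_0b8746_pr

/-- completion times `C i j` for operation times `t i j` (0-indexed tasks and machines) -/
def comp (t : ℕ → ℕ → ℝ) : ℕ → ℕ → ℝ
  | 0, _ => 0
  | _ + 1, 0 => 0
  | i + 1, j + 1 => max (comp t i (j + 1)) (comp t (i + 1) j) + t i j

/-- optimal makespan over all permutation schedules -/
noncomputable def opt {n m : ℕ} (T : Fin n × Fin m → ℝ) : ℝ :=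
  ⨅ π : Equiv.Perm (Fin n),
    comp (fun i j => if h : i < n ∧ j < m then T (π ⟨i, h.1⟩, ⟨j, h.2⟩) else 0) n m

theorem comp_zero (t : ℕ → ℕ → ℝ) (i : ℕ) : comp t i 0 = 0 := by cases i <;> simp [comp]

theorem comp_meas {Ω : Type} [MeasurableSpace Ω] (t : Ω → ℕ → ℕ → ℝ)
    (ht : ∀ i j, Measurable fun ω => t ω i j) (i j : ℕ) : Measurable fun ω => comp (t ω) i j := by
  induction i generalizing j with
  | zero => simp [comp]
  | succ i ih =>
    induction j with
    | zero => simp [comp]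
    | succ j ih2 => simp only [comp]; exact ((ih _).max ih2).add (ht _ _)

theorem comp_nonneg (t : ℕ → ℕ → ℝ) (ht : ∀ i j, 0 ≤ t i j) (i j : ℕ) : 0 ≤ comp t i j := by
  induction i generalizing j with
  | zero => simp [comp]
  | succ i ih =>
    cases j with
    | zero => simp [comp]
    | succ j => simp only [comp]; exact add_nonneg ((ih _).trans (le_max_left _ _)) (ht _ _)

theorem opt_meas {n m : ℕ} : Measurable (opt (n := n) (m := m)) := by
  refine Measurable.iInf fun π => comp_meas _ (fun i j => ?_) n m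
  by_cases h : i < n ∧ j < m
  · simp only [dif_pos h]; exact measurable_pi_apply _
  · simp only [dif_neg h]; exact measurable_const

theorem comp_bound (t : ℕ → ℕ → ℝ) (n m : ℕ) (s S : ℕ → ℝ) (M K B : ℝ) (hK : 0 ≤ K) (hB : 0 ≤ B)
    (ht : ∀ i j, t i j ≤ B) (hs0 : s 0 = 0) (hs : ∀ i < n, s i ≤ s (i + 1))
    (hM : ∀ j < m, S j ≤ M) (hM0 : 0 ≤ M)
    (hP : ∀ i ≤ n, ∀ j < m, |∑ k ∈ Finset.range i, t k j - s i * S j| ≤ K) :
    ∀ j ≤ m, ∀ i ≤ n, comp t i j ≤ s i * M + j * (2 * K + B) := by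
  have hs1 : ∀ i ≤ n, 0 ≤ s i := by
    intro i hi
    induction i with
    | zero => exact hs0.ge
    | succ i ih => exact (ih (by omega)).trans (hs i (by omega))
  intro j
  induction j with
  | zero => intro _ i hi; rw [comp_zero]; simpa using mul_nonneg (hs1 i hi) hM0
  | succ j ih =>
    intro hj
    have key : ∀ i ≤ n, comp t i (j + 1) ≤ ∑ k ∈ Finset.range i, t k j + s i * (M - S j)
        + (j * (2 * K + B) + B + K) := by
      intro i
      induction i with
      | zero => intro _; simp only [comp, Finset.sum_range_zero, hs0, zero_mul, zero_add]; positivity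
      | succ i ih2 =>
        intro hi
        have h1 := ih2 (by omega)
        have h2 := ih (by omega) (i + 1) hi
        have h3 := abs_le.mp (hP (i + 1) hi j (by omega))
        have h4 := mul_le_mul_of_nonneg_right (hs i (by omega)) (sub_nonneg.mpr (hM j (by omega)))
        have h5 := ht i j
        rw [comp, ← max_add_add_right, max_le_iff]
        rw [Finset.sum_range_succ] at h3 ⊢
        constructor <;> nlinarith
    intro i hi
    have h1 := key i hi
    have h3 := abs_le.mp (hP i hi j (by omega))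
    push_cast
    nlinarith

theorem opt_nonneg {n m : ℕ} (T : Fin n × Fin m → ℝ) (hT : ∀ x, 0 ≤ T x) : 0 ≤ opt T :=
  le_ciInf fun _ => comp_nonneg _ (fun i j => by split_ifs; exacts [hT _, le_rfl]) _ _

theorem opt_le {n m : ℕ} (hn : 0 < n) (T : Fin n × Fin m → ℝ) (B M : ℝ) (hT : ∀ x, 0 ≤ T x)
    (hB : ∀ x, T x ≤ B) (hB0 : 0 ≤ B) (hM0 : 0 ≤ M) (hM : ∀ j, ∑ k, T (k, j) ≤ M) :
    opt T ≤ M + m * (2 * m + 1) * B := by
  have hn' : (0 : ℝ) < n := by exact_mod_cast hn
  obtain ⟨π, h⟩ := steinitz hn (fun k j => T (k, j) - (∑ k, T (k, j)) / n) B (fun k j => by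
    have h1 : 0 ≤ (∑ k, T (k, j)) / n := div_nonneg (Finset.sum_nonneg fun _ _ => hT _) hn'.le
    have h2 : (∑ k, T (k, j)) / n ≤ B := by
      rw [div_le_iff₀ hn']
      simpa [mul_comm] using Finset.sum_le_card_nsmul Finset.univ (fun k => T (k, j)) B
        fun _ _ => hB _
    rw [abs_le]; constructor <;> linarith [hT (k, j), hB (k, j)]) (by
    funext j
    simp only [Finset.sum_apply, Finset.sum_sub_distrib, Pi.zero_apply]
    simp; field_simp; ring)
  refine (ciInf_le (Set.finite_range _).bddBelow π).trans ?_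
  have := comp_bound (fun i j => if h : i < n ∧ j < m then T (π ⟨i, h.1⟩, ⟨j, h.2⟩) else 0) n m
    (fun i => i / n) (fun j => if h : j < m then ∑ k, T (k, ⟨j, h⟩) else 0) M (m * B) B
    (by positivity) hB0 (fun i j => by split_ifs; exacts [hB _, hB0]) (by simp)
    (fun i _ => by push_cast; gcongr; linarith) (fun j hj => by rw [dif_pos hj]; exact hM _) hM0 (by
      intro i hi j hj
      refine le_of_eq_of_le ?_ (h i hi ⟨j, hj⟩)
      congr 1
      rw [dif_pos hj, show (i : ℝ) / n * ∑ k, T (k, ⟨j, hj⟩)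
        = ∑ _ ∈ Finset.range i, (∑ k, T (k, ⟨j, hj⟩)) / n by simp; ring, ← Finset.sum_sub_distrib]
      refine Finset.sum_congr rfl fun k hk => ?_
      have : k < n := by rw [Finset.mem_range] at hk; omega
      rw [dif_pos ⟨this, hj⟩, dif_pos this]) m le_rfl n le_rfl
  refine this.trans (le_of_eq ?_)
  field_simp

theorem col {n m : ℕ} (φ : Fin n × Fin m → ℝ) (j : Fin m) :
    ∑ x ∈ Finset.univ.filter (fun x : Fin n × Fin m => x.2 = j), φ x = ∑ k, φ (k, j) := by
  rw [Finset.sum_filter, Fintype.sum_prod_type]; simp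

theorem colExp {n m : ℕ} (F : Measure ℝ) [IsProbabilityMeasure F] (g : ℝ → ℝ) (hm : Measurable g)
    (K : ℝ) (hK : 0 ≤ K) (hg : ∀ x, g x ∈ Set.Icc 0 K) (j : Fin m) (t : ℝ) :
    Integrable (fun T : Fin n × Fin m → ℝ => Real.exp (t * ∑ k, (g (T (k, j)) - ∫ x, g x ∂F)))
      (Measure.pi fun _ => F) ∧
    ∫ T : Fin n × Fin m → ℝ, Real.exp (t * ∑ k, (g (T (k, j)) - ∫ x, g x ∂F))
      ∂(Measure.pi fun _ => F) ≤ Real.exp (n * (K / 2) ^ 2 * t ^ 2 / 2) := by
  have h := HasSubgaussianMGF.sum_of_iIndepFun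
    (iIndepFun_pi (μ := fun _ : Fin n × Fin m => F) (X := fun _ y => g y - ∫ x, g x ∂F)
      fun _ => (hm.sub_const _).aemeasurable) (c := fun _ => (‖K - 0‖₊ / 2) ^ 2)
    (s := Finset.univ.filter fun x => x.2 = j) fun x _ => by
      have := hasSubgaussianMGF_of_mem_Icc (μ := Measure.pi fun _ : Fin n × Fin m => F)
        (X := fun T => g (T x)) (hm.comp (measurable_pi_apply x)).aemeasurable
        (ae_of_all _ fun T => hg _)
      rwa [integral_comp_eval (μ := fun _ : Fin n × Fin m => F) hm.aestronglyMeasurable] at this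
  have h1 := h.1 t
  have h2 := h.2 t
  simp only [mgf, col] at h1 h2
  refine ⟨h1, h2.trans (le_of_eq ?_)⟩
  push_cast
  rw [col (fun _ => _)]
  simp [abs_of_nonneg hK]

theorem colVar {n m : ℕ} (F : Measure ℝ) [IsProbabilityMeasure F] (g : ℝ → ℝ)
    (hg : MemLp g 2 F) (j : Fin m) :
    Integrable (fun T : Fin n × Fin m → ℝ => (∑ k, g (T (k, j)) - n * ∫ x, g x ∂F) ^ 2)
      (Measure.pi fun _ => F) ∧
    ∫ T : Fin n × Fin m → ℝ, (∑ k, g (T (k, j)) - n * ∫ x, g x ∂F) ^ 2
      ∂(Measure.pi fun _ => F) ≤ n * ∫ x, g x ^ 2 ∂F := by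
  have h1 : ∀ x : Fin n × Fin m, MemLp (fun T : Fin n × Fin m → ℝ => g (T x)) 2
      (Measure.pi fun _ => F) := fun x =>
    hg.comp_measurePreserving (measurePreserving_eval (fun _ => F) x)
  have h2 : MemLp (fun T : Fin n × Fin m → ℝ => ∑ k, g (T (k, j))) 2 (Measure.pi fun _ => F) :=
    memLp_finsetSum _ fun k _ => h1 _
  refine ⟨(h2.sub (memLp_const _)).integrable_sq, ?_⟩
  have h3 := IndepFun.variance_sum (s := Finset.univ.filter fun x : Fin n × Fin m => x.2 = j)
    (fun x _ => h1 x) fun x _ y _ hxy => (iIndepFun_pi (μ := fun _ : Fin n × Fin m => F)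
      (X := fun _ => g) fun _ => hg.aestronglyMeasurable.aemeasurable).indepFun hxy
  have h4 : (∑ x ∈ Finset.univ.filter fun x : Fin n × Fin m => x.2 = j,
      fun T : Fin n × Fin m → ℝ => g (T x)) = fun T => ∑ k, g (T (k, j)) := by
    funext T; rw [Finset.sum_apply, col fun x => g (T x)]
  rw [h4, variance_eq_integral h2.aestronglyMeasurable.aemeasurable, col,
    integral_finsetSum _ fun k _ => (h1 _).integrable one_le_two] at h3
  simp only [integral_comp_eval (μ := fun _ : Fin n × Fin m => F) hg.aestronglyMeasurable,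
    Finset.sum_const, Finset.card_univ, Fintype.card_fin, nsmul_eq_mul] at h3
  rw [h3]
  refine (Finset.sum_le_card_nsmul _ _ (∫ x, g x ^ 2 ∂F) fun k _ => ?_).trans (by simp)
  refine (variance_le_expectation_sq (h1 _).aestronglyMeasurable).trans (le_of_eq ?_)
  exact integral_comp_eval (μ := fun _ : Fin n × Fin m => F) (f := fun x => g x ^ 2)
    hg.integrable_sq.aestronglyMeasurable

theorem tailL2 (F : Measure ℝ) [IsProbabilityMeasure F] (hF : MemLp id 2 F) (K : ℝ) (hK : 0 ≤ K) :
    MemLp (fun x => max (x - K) 0) 2 F :=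
  hF.mono (by fun_prop) (ae_of_all _ fun x => by
    simp only [Real.norm_eq_abs, id]
    rw [abs_of_nonneg (le_max_right _ _)]
    exact max_le (by linarith [le_abs_self x]) (abs_nonneg _))

theorem tail0 (F : Measure ℝ) [IsProbabilityMeasure F] (hF : MemLp id 2 F) (ε : ℝ) (hε : 0 < ε) :
    ∃ K : ℝ, 0 ≤ K ∧ ∫ x, max (x - K) 0 ^ 2 ∂F ≤ ε := by
  have := tendsto_integral_of_dominated_convergence (μ := F)
    (F := fun (k : ℕ) x => max (x - k) 0 ^ 2) (f := fun _ => 0) (fun x => x ^ 2)
    (fun k => by fun_prop) hF.integrable_sq (fun k => ae_of_all _ fun x => by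
      rw [Real.norm_eq_abs, abs_of_nonneg (sq_nonneg _), ← sq_abs x]
      exact pow_le_pow_left₀ (le_max_right _ _)
        (max_le (by linarith [le_abs_self x, (Nat.cast_nonneg k : (0 : ℝ) ≤ k)]) (abs_nonneg _)) 2)
    (ae_of_all _ fun x => tendsto_const_nhds.congr' (by
      filter_upwards [Filter.eventually_ge_atTop ⌈x⌉₊] with k hk
      rw [max_eq_right (sub_nonpos.mpr (Nat.ceil_le.mp hk))]; simp))
  rw [integral_zero] at this
  obtain ⟨k, hk⟩ := (this.eventually (ge_mem_nhds hε)).exists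
  exact ⟨k, by positivity, hk⟩

end Pool.Agent.H.MP_0b8746_pr
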