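import Mathlib
import Pool.Agent.H.MP_0b8746_pr.Basic

set_option autoImplicit false
open MeasureTheory ProbabilityTheory

namespace Pool.Agent.H.MP_0b8746_pr

theorem amgm (z a : ℝ) (ha : 0 < a) : z ≤ a / 2 + z ^ 2 / (2 * a) := by
  have : a / 2 + z ^ 2 / (2 * a) - z = (z - a) ^ 2 / (2 * a) := by field_simp; ring
  have : 0 ≤ (z - a) ^ 2 / (2 * a) := by positivity
  linarith

theorem bound {n m : ℕ} (hn : 0 < n) (hm : 0 < m) (F : Measure ℝ) [IsProbabilityMeasure F]
    (h0 : F (Set.Iio 0) = 0) (hF : MemLp id 2 F) (K L a b s : ℝ) (hK : 0 ≤ K) (hL : 0 ≤ L)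
    (ha : 0 < a) (hb : 0 < b) (hs : 0 < s) (hsn : s ^ 2 = n) :
    Integrable (opt (n := n) (m := m)) (Measure.pi fun _ => F) ∧
    ∫ T, opt (n := n) (m := m) T ∂(Measure.pi fun _ => F) ≤ n * ∫ x, x ∂F
      + (a + s * Real.exp (-a / s) * (m * Real.exp ((K / 2) ^ 2 / 2)))
      + (a / 2 + m * (n * ∫ x, max (x - K) 0 ^ 2 ∂F) / (2 * a))
      + m * (2 * m + 1) * (L + (b / 2 + n * m * (∫ x, max (x - L) 0 ^ 2 ∂F) / (2 * b))) := by
  let g : ℝ → ℝ := fun x => max 0 (min x K)
  have gm : Measurable g := by fun_prop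
  have gb : ∀ x, g x ∈ Set.Icc 0 K := fun x => ⟨le_max_left _ _, max_le hK (min_le_right _ _)⟩
  have gs : ∀ x, 0 ≤ x → x = g x + max (x - K) 0 := fun x hx => by
    simp only [g]
    rcases le_total x K with h | h
    · rw [min_eq_left h, max_eq_right hx, max_eq_right (sub_nonpos.mpr h), add_zero]
    · rw [min_eq_right h, max_eq_right hK, max_eq_left (sub_nonneg.mpr h)]; ring
  have h0' : ∀ᵐ x ∂F, 0 ≤ x := by
    rw [ae_iff]; simpa [Set.Iio] using h0
  have hτ : ∫ x, x ∂F = ∫ x, g x ∂F + ∫ x, max (x - K) 0 ∂F := by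
    rw [← integral_add (Integrable.of_mem_Icc 0 K gm.aemeasurable (ae_of_all _ gb))
      ((tailL2 F hF K hK).integrable one_le_two)]
    exact integral_congr_ae (h0'.mono gs)
  have hP : ∀ᵐ T : Fin n × Fin m → ℝ ∂(Measure.pi fun _ => F), ∀ x, 0 ≤ T x :=
    ae_all_iff.mpr fun x =>
      (measurePreserving_eval (fun _ : Fin n × Fin m => F) x).quasiMeasurePreserving.ae h0'
  let E : Fin m → (Fin n × Fin m → ℝ) → ℝ := fun j T =>
    Real.exp (s⁻¹ * ∑ k, (g (T (k, j)) - ∫ x, g x ∂F))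
  let Z : Fin m → (Fin n × Fin m → ℝ) → ℝ := fun j T =>
    (∑ k, max (T (k, j) - K) 0 - n * ∫ x, max (x - K) 0 ∂F) ^ 2
  let W : Fin n × Fin m → (Fin n × Fin m → ℝ) → ℝ := fun x T => max (T x - L) 0 ^ 2
  have hE := fun j => colExp (n := n) (m := m) F g gm K hK gb j s⁻¹
  have hZ := fun j => colVar (n := n) (m := m) F _ (tailL2 F hF K hK) j
  have hW : ∀ x, Integrable (W x) (Measure.pi fun _ => F) := fun x =>
    integrable_comp_eval (μ := fun _ : Fin n × Fin m => F) (f := fun y => max (y - L) 0 ^ 2)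
      (tailL2 F hF L hL).integrable_sq
  have iE : Integrable (fun T => ∑ j, E j T) (Measure.pi fun _ => F) :=
    integrable_finsetSum _ fun j _ => (hE j).1
  have iZ : Integrable (fun T => ∑ j, Z j T) (Measure.pi fun _ => F) :=
    integrable_finsetSum _ fun j _ => (hZ j).1
  have iW : Integrable (fun T => ∑ x, W x T) (Measure.pi fun _ => F) :=
    integrable_finsetSum _ fun x _ => hW x
  let c0 : ℝ := n * ∫ x, x ∂F + a + a / 2 + m * (2 * m + 1) * (L + b / 2)
  let G : (Fin n × Fin m → ℝ) → ℝ := fun T => c0 + (s * Real.exp (-a / s)) * ∑ j, E j T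
    + (2 * a)⁻¹ * ∑ j, Z j T + (m * (2 * m + 1) / (2 * b)) * ∑ x, W x T
  have iG : Integrable G (Measure.pi fun _ => F) :=
    (((integrable_const _).add (iE.const_mul _)).add (iZ.const_mul _)).add (iW.const_mul _)
  have hG : ∀ᵐ T ∂(Measure.pi fun _ => F), opt T ≤ G T := by
    filter_upwards [hP] with T hT
    have hM : ∀ j, ∑ k, T (k, j) ≤ n * ∫ x, x ∂F + (a + s * Real.exp (-a / s) * ∑ j, E j T)
        + (a / 2 + (∑ j, Z j T) / (2 * a)) := by
      intro j
      have e1 : ∑ k, T (k, j) = n * ∫ x, x ∂F + ∑ k, (g (T (k, j)) - ∫ x, g x ∂F)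
          + (∑ k, max (T (k, j) - K) 0 - n * ∫ x, max (x - K) 0 ∂F) := by
        rw [Finset.sum_congr rfl fun k _ => gs _ (hT (k, j)), hτ, Finset.sum_add_distrib,
          Finset.sum_sub_distrib]
        simp; ring
      rw [e1]
      refine add_le_add (add_le_add le_rfl ?_) ((amgm _ a ha).trans ?_)
      · have h1 : E j T ≤ ∑ j, E j T :=
          Finset.single_le_sum (f := fun j => E j T) (fun _ _ => (Real.exp_pos _).le)
            (Finset.mem_univ j)
        have h2 := Real.add_one_le_exp (-a / s + s⁻¹ * ∑ k, (g (T (k, j)) - ∫ x, g x ∂F))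
        rw [Real.exp_add] at h2
        have h3 := mul_le_mul_of_nonneg_left h2 hs.le
        have h4 := mul_le_mul_of_nonneg_left h1 (mul_pos hs (Real.exp_pos (-a / s))).le
        have h5 : s * (-a / s + s⁻¹ * ∑ k, (g (T (k, j)) - ∫ x, g x ∂F) + 1)
            = -a + ∑ k, (g (T (k, j)) - ∫ x, g x ∂F) + s := by field_simp
        simp only [E] at h4 ⊢
        linarith
      · gcongr
        exact Finset.single_le_sum (f := fun j => Z j T) (fun _ _ => sq_nonneg _)
          (Finset.mem_univ j)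
    have hw : 0 ≤ ∑ x, W x T := Finset.sum_nonneg fun _ _ => sq_nonneg _
    refine (opt_le hn T (L + (b / 2 + (∑ x, W x T) / (2 * b))) _ hT (fun x => ?_) (by positivity)
      ((Finset.sum_nonneg fun k _ => hT _).trans (hM ⟨0, hm⟩)) hM).trans (le_of_eq ?_)
    · have h1 := amgm (max (T x - L) 0) b hb
      have h2 : max (T x - L) 0 ^ 2 / (2 * b) ≤ (∑ x, W x T) / (2 * b) := by
        gcongr
        exact Finset.single_le_sum (f := fun x => W x T) (fun _ _ => sq_nonneg _)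
          (Finset.mem_univ x)
      linarith [le_max_left (T x - L) 0]
    · simp only [G, c0]; ring
  have io : Integrable (opt (n := n) (m := m)) (Measure.pi fun _ => F) :=
    iG.mono' opt_meas.aestronglyMeasurable (by
      filter_upwards [hP, hG] with T h1 h2
      rwa [Real.norm_eq_abs, abs_of_nonneg (opt_nonneg T h1)])
  refine ⟨io, (integral_mono_ae io iG hG).trans ?_⟩
  simp only [G]
  have i1 : Integrable (fun T => c0 + (s * Real.exp (-a / s)) * ∑ j, E j T)
    (Measure.pi fun _ => F) := (integrable_const _).add (iE.const_mul _)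
  have i2 : Integrable (fun T => c0 + (s * Real.exp (-a / s)) * ∑ j, E j T
    + (2 * a)⁻¹ * ∑ j, Z j T) (Measure.pi fun _ => F) := i1.add (iZ.const_mul _)
  rw [integral_add i2 (iW.const_mul _), integral_add i1 (iZ.const_mul _),
    integral_add (integrable_const _) (iE.const_mul _), integral_const_mul, integral_const_mul,
    integral_const_mul, integral_finsetSum _ fun j _ => (hE j).1,
    integral_finsetSum _ fun j _ => (hZ j).1, integral_finsetSum _ fun x _ => hW x]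
  have b1 : ∑ j, ∫ T, E j T ∂(Measure.pi fun _ => F) ≤ m * Real.exp ((K / 2) ^ 2 / 2) := by
    refine (Finset.sum_le_card_nsmul _ _ _ fun j _ => (hE j).2).trans (le_of_eq ?_)
    rw [← hsn]; simp; left; field_simp
  have b2 : ∑ j, ∫ T, Z j T ∂(Measure.pi fun _ => F) ≤ m * (n * ∫ x, max (x - K) 0 ^ 2 ∂F) :=
    (Finset.sum_le_card_nsmul _ _ _ fun j _ => (hZ j).2).trans (by simp)
  have b3 : ∑ x, ∫ T, W x T ∂(Measure.pi fun _ => F) = n * m * ∫ x, max (x - L) 0 ^ 2 ∂F := by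
    rw [Finset.sum_congr rfl fun x _ => integral_comp_eval (μ := fun _ : Fin n × Fin m => F)
      (f := fun y => max (y - L) 0 ^ 2) (by fun_prop)]
    simp
  have c1 := mul_le_mul_of_nonneg_left b1 (mul_pos hs (Real.exp_pos (-a / s))).le
  have c2 := mul_le_mul_of_nonneg_left b2 (inv_pos.mpr (mul_pos two_pos ha)).le
  simp only [E, Z] at c1 c2
  rw [b3]
  simp only [integral_const, probReal_univ, one_smul, c0]
  refine (add_le_add (add_le_add (add_le_add le_rfl c1) c2) le_rfl).trans (le_of_eq ?_)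
  ring

theorem main (F : Measure ℝ) [IsProbabilityMeasure F] (h0 : F (Set.Iio 0) = 0) (hF : MemLp id 2 F)
    (c : ℝ) (hc : 0 < c) : ∃ m0 : ℕ, ∀ m ≥ m0, ∃ n0 : ℕ, ∀ n ≥ n0,
      Integrable (opt (n := n) (m := m)) (Measure.pi fun _ => F) ∧
      ∫ T, opt (n := n) (m := m) T ∂(Measure.pi fun _ => F) - (n + m - 1) * ∫ x, x ∂F
        < c * √(m * n) := by
  obtain ⟨η, hη, rfl⟩ : ∃ η : ℝ, 0 < η ∧ c = 6 * η := ⟨c / 6, by positivity, by ring⟩
  obtain ⟨K, hK, hK'⟩ := tail0 F hF (η ^ 2) (by positivity)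
  set C := Real.exp ((K / 2) ^ 2 / 2)
  have hC : 0 < C := Real.exp_pos _
  refine ⟨⌈(2 * C / η ^ 3) ^ 2⌉₊ + 1, fun m hm => ?_⟩
  have hm0 : 0 < m := by omega
  have hm1 : (1 : ℝ) ≤ m := by exact_mod_cast hm0
  obtain ⟨L, hL, hL'⟩ := tail0 F hF (η ^ 2 / (m * (2 * m + 1)) ^ 2) (by positivity)
  refine ⟨⌈(m * (2 * m + 1) * L / η) ^ 2⌉₊ + 1, fun n hn => ?_⟩
  have hn0 : 0 < n := by omega
  have hn1 : (1 : ℝ) ≤ n := by exact_mod_cast hn0
  set r := √(m : ℝ) with hr
  set s := √(n : ℝ) with hs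
  have r2 : r ^ 2 = m := Real.sq_sqrt (by positivity)
  have s2 : s ^ 2 = n := Real.sq_sqrt (by positivity)
  have r1 : 1 ≤ r := Real.one_le_sqrt.mpr hm1
  have s1 : 1 ≤ s := Real.one_le_sqrt.mpr hn1
  have r3 : 2 * C / η ^ 3 ≤ r := Real.le_sqrt_of_sq_le (Nat.ceil_le.mp (by omega))
  have s3 : m * (2 * m + 1) * L / η ≤ s := Real.le_sqrt_of_sq_le (Nat.ceil_le.mp (by omega))
  have ha : 0 < η * r * s := by positivity
  obtain ⟨h1, h2⟩ := bound hn0 hm0 F h0 hF K L (η * r * s) (η * r * s / (m * (2 * m + 1))) s hK hL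
    ha (by positivity) (by positivity) s2
  refine ⟨h1, ?_⟩
  rw [Real.sqrt_mul (by positivity), ← hr, ← hs]
  have hτ : 0 ≤ ∫ x, x ∂F := integral_nonneg_of_ae (by
    rw [Filter.EventuallyLE, ae_iff]; simpa [Set.Iio] using h0)
  have b1 : s * Real.exp (-(η * r * s) / s) * (m * C) ≤ η * r * s := by
    rw [show -(η * r * s) / s = -(η * r) by field_simp, Real.exp_neg, ← r2, mul_right_comm,
      ← div_eq_mul_inv, div_le_iff₀ (Real.exp_pos _)]
    have e1 := Real.quadratic_le_exp_of_nonneg (x := η * r) (by positivity)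
    rw [div_le_iff₀ (by positivity)] at r3
    have e2 : (η * r) ^ 2 / 2 ≤ Real.exp (η * r) := by nlinarith [mul_pos hη (zero_lt_one.trans_le r1)]
    refine le_trans ?_ (mul_le_mul_of_nonneg_left e2 ha.le)
    have := mul_le_mul_of_nonneg_left r3 (show 0 ≤ s * r ^ 2 / 2 by positivity)
    nlinarith
  have b2 : m * (n * ∫ x, max (x - K) 0 ^ 2 ∂F) / (2 * (η * r * s)) ≤ η * r * s / 2 := by
    rw [div_le_iff₀ (by positivity), ← r2, ← s2]
    have := mul_le_mul_of_nonneg_left hK' (show 0 ≤ r ^ 2 * s ^ 2 by positivity)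
    nlinarith
  have b3 : m * (2 * m + 1) * L ≤ η * r * s := by
    rw [div_le_iff₀ hη] at s3
    nlinarith [mul_pos hη (zero_lt_one.trans_le s1)]
  have b4 : m * (2 * m + 1) * (n * m * (∫ x, max (x - L) 0 ^ 2 ∂F)
      / (2 * (η * r * s / (m * (2 * m + 1))))) ≤ η * r * s / 2 := by
    rw [le_div_iff₀ (by positivity)] at hL'
    rw [show (m : ℝ) * (2 * m + 1) * (n * m * (∫ x, max (x - L) 0 ^ 2 ∂F)
      / (2 * (η * r * s / (m * (2 * m + 1))))) = n * m * ((∫ x, max (x - L) 0 ^ 2 ∂F)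
        * (m * (2 * m + 1)) ^ 2) / (2 * (η * r * s)) by field_simp, div_le_iff₀ (by positivity)]
    have := mul_le_mul_of_nonneg_left hL' (show (0 : ℝ) ≤ n * m by positivity)
    refine this.trans (le_of_eq ?_)
    rw [← r2, ← s2]; ring
  have b5 : m * (2 * m + 1) * (η * r * s / (m * (2 * m + 1)) / 2) = η * r * s / 2 := by
    field_simp
  have b6 := mul_nonneg (sub_nonneg.mpr hm1) hτ
  rw [mul_add ((m : ℝ) * (2 * m + 1)), mul_add ((m : ℝ) * (2 * m + 1)), b5] at h2
  linarith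

end Pool.Agent.H.MP_0b8746_pr
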